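import Pool.Agent.Helper72.LSr.C0

/-!
# Piece LR-Ca: `K_order`, `K_last`
-/

namespace Pool.Agent.Helper63.LSr

open Finset
open scoped Classical
open Pool.Agent.Helper72.LSr

variable {V : Type} (G : SimpleGraph V)

theorem lt_of_max {R : Finset V} {a : V} (ha : a ∉ R) (f : V → ℕ)
    (hmax : ∀ x ∈ R, f x ≤ f a) (hf : Set.InjOn f (insert a R : Finset V)) :
    ∀ x ∈ R, f x < f a := by
  intro x hx
  refine lt_of_le_of_ne (hmax x hx) ?_
  intro h
  have := hf (mem_coe.2 (mem_insert_of_mem hx)) (mem_coe.2 (mem_insert_self a R)) h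
  exact ha (this ▸ hx)

theorem Qf_insert_self {R : Finset V} {a : V} (ha : a ∉ R) (f : V → ℕ)
    (hmax : ∀ x ∈ R, f x ≤ f a) (hf : Set.InjOn f (insert a R : Finset V)) :
    Qf G (insert a R) f a = nb G R a := by
  have hlt := lt_of_max ha f hmax hf
  ext x
  unfold Qf
  rw [mem_filter, mem_nb, mem_insert]
  constructor
  · rintro ⟨h1 | h1, h2, h3⟩
    · exact absurd h3 (by rw [h1]; exact lt_irrefl _)
    · exact ⟨h1, h2⟩
  · rintro ⟨h1, h2⟩
    exact ⟨Or.inr h1, h2, hlt x h1⟩

theorem Qf_insert_of_mem {R : Finset V} {a u : V} (f : V → ℕ)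
    (hmax : ∀ x ∈ R, f x ≤ f a) (hu : u ∈ R) :
    Qf G (insert a R) f u = Qf G R f u := by
  ext x
  unfold Qf
  rw [mem_filter, mem_filter, mem_insert]
  constructor
  · rintro ⟨h1 | h1, h2, h3⟩
    · exact absurd (hmax u hu) (by rw [← h1]; exact not_le_of_gt h3)
    · exact ⟨h1, h2, h3⟩
  · rintro ⟨h1, h2, h3⟩
    exact ⟨Or.inr h1, h2, h3⟩

/-- removing a set of vertices one after the other (the earlier ones in the ordering `f` first) -/
theorem K_order (S R : Finset V) (hR : R ⊆ S) (f : V → ℕ) (hf : Set.InjOn f R) (r : ℕ) :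
    K G S (r + 1) = K G (S \ R) (r + 1) +
      ∑ u ∈ R, K G (nb G S u \ Qf G R f u) r := by
  revert hR hf
  induction R using Finset.induction_on_max_value f with
  | empty => intro _ _; simp
  | insert a R ha hmax ih =>
    intro hR hf
    have haS : a ∈ S := hR (mem_insert_self a R)
    have hRS : R ⊆ S := fun x hx => hR (mem_insert_of_mem hx)
    have hfR : Set.InjOn f R := hf.mono (by simp)
    have h1 := K_erase G (S := S \ R) (v := a) (mem_sdiff.2 ⟨haS, ha⟩) r
    have e1 : (S \ R).erase a = S \ insert a R := by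
      ext x
      rw [mem_erase, mem_sdiff, mem_sdiff, mem_insert]
      tauto
    have e2 : nb G (S \ R) a = nb G S a \ Qf G (insert a R) f a := by
      rw [Qf_insert_self G ha f hmax hf]
      ext x
      rw [mem_sdiff, mem_nb, mem_nb, mem_nb, mem_sdiff]
      tauto
    rw [ih hRS hfR, h1, e1, e2, sum_insert ha, add_assoc]
    congr 1
    congr 1
    apply sum_congr rfl
    intro u hu
    rw [Qf_insert_of_mem G f hmax hu]

/-- the number of cliques of a set, by their last vertex -/
theorem K_last (R : Finset V) (f : V → ℕ) (hf : Set.InjOn f R) (r : ℕ) :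
    K G R (r + 1) = ∑ u ∈ R, K G (Qf G R f u) r := by
  revert hf
  induction R using Finset.induction_on_max_value f with
  | empty => intro _; rw [K_empty]; simp
  | insert a R ha hmax ih =>
    intro hf
    have hfR : Set.InjOn f R := hf.mono (by simp)
    rw [K_insert G ha, ih hfR, sum_insert ha, Qf_insert_self G ha f hmax hf, add_comm]
    congr 1
    apply sum_congr rfl
    intro u hu
    rw [Qf_insert_of_mem G f hmax hu]

end Pool.Agent.Helper63.LSr
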